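import Pool.Graph.R_seed8.Results.MP_dba3a1_an.NotFull

/-!
# MP_dba3a1_an: the projection-monoid functor is not full at any non-commutative AW*-algebra

Let `A` be an AW*-algebra and let `B` be the conjugate algebra of `A` (the same `*`-ring, with the
scalar multiplication `z • x = z̄ x`). The identity is an isomorphism `P(A) → P(B)` of Baer
*-semigroups. If it is the restriction of a `*`-homomorphism `A → B`, then all projections of `A`
commute (conjugate by the unitaries `(1 - p) + i p`), hence all projections are central, hence `A` is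
commutative.
-/

set_option autoImplicit false

open scoped ComplexConjugate

universe u

namespace Pool.Agent.Results.MP_dba3a1_an.EveryNoncommutative

open Pool.Agent.Results.MP_dba3a1_an.NotFull

/-- The conjugate algebra of `A`: the same `*`-ring with the scalar multiplication
`z • x = z̄ x`. -/
def Conj (A : Type*) : Type _ := A

section instances

variable {A : Type*} [CStarAlgebra A]

noncomputable instance : NormedRing (Conj A) := inferInstanceAs (NormedRing A)

noncomputable instance : StarRing (Conj A) := inferInstanceAs (StarRing A)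

instance : CompleteSpace (Conj A) := inferInstanceAs (CompleteSpace A)

instance : CStarRing (Conj A) := inferInstanceAs (CStarRing A)

/-- The scalar multiplication of the conjugate algebra. -/
noncomputable instance : Algebra ℂ (Conj A) :=
  RingHom.toAlgebra' ((algebraMap ℂ A).comp (starRingEnd ℂ)) fun z x =>
    Algebra.commutes (conj z) (show A from x)

/-- The identity `A → Conj A`. -/
def toConj (A : Type*) (x : A) : Conj A := x

/-- The identity `Conj A → A`. -/
def ofConj (A : Type*) (x : Conj A) : A := x

theorem toConj_smul (z : ℂ) (x : A) : z • toConj A x = toConj A (conj z • x) := by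
  show (algebraMap ℂ A (conj z) * x : A) = conj z • x
  rw [Algebra.smul_def]

noncomputable instance : NormedAlgebra ℂ (Conj A) where
  norm_smul_le z x := by
    obtain ⟨y, rfl⟩ : ∃ y : A, toConj A y = x := ⟨x, rfl⟩
    rw [toConj_smul]
    show ‖(conj z • y : A)‖ ≤ ‖z‖ * ‖y‖
    have h1 : ‖(conj z • y : A)‖ ≤ ‖conj z‖ * ‖y‖ := norm_smul_le _ _
    rwa [RCLike.norm_conj] at h1

instance : StarModule ℂ (Conj A) where
  star_smul z x := by
    obtain ⟨y, rfl⟩ : ∃ y : A, toConj A y = x := ⟨x, rfl⟩
    rw [toConj_smul]
    have h2 : star z • star (toConj A y) = toConj A (conj (star z) • star y) :=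
      toConj_smul (star z) (star y)
    rw [h2]
    show (star (conj z • y) : A) = conj (star z) • star y
    rw [star_smul]
    simp

noncomputable instance : CStarAlgebra (Conj A) where

end instances

section

variable {A : Type*} [CStarAlgebra A]

theorem awstar_conj (hA : IsAWStar A) : IsAWStar (Conj A) := hA

theorem toConj_baer : IsBaerMorphism (A := A) (B := Conj A) (toConj A) where
  maps_to x hx := hx
  map_mul _ _ _ _ := rfl
  map_star _ _ := rfl
  map_rann S _ e he := by
    have : toConj A '' S = (S : Set A) := Set.image_id S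
    rw [this]
    exact he

/-- The inverse of the identity is a morphism, too. -/
theorem ofConj_baer : IsBaerMorphism (A := Conj A) (B := A) (ofConj A) where
  maps_to x hx := hx
  map_mul _ _ _ _ := rfl
  map_star _ _ := rfl
  map_rann S _ e he := by
    have : ofConj A '' S = (S : Set (Conj A)) := Set.image_id S
    rw [this]
    exact he

/-- A projection. -/
def IsPr (p : A) : Prop := star p = p ∧ p * p = p

theorem IsPr.mem {p : A} (hp : IsPr p) : p ∈ P A := Submonoid.subset_closure hp

/-- If the identity extends to a `*`-homomorphism into the conjugate algebra, all projections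
commute. -/
theorem proj_comm (f : A →⋆ₙₐ[ℂ] Conj A) (hf : ∀ x ∈ P A, f x = toConj A x) {p q : A}
    (hp : IsPr p) (hq : IsPr q) : p * q = q * p := by
  set u : A := (1 - p) + Complex.I • p with hu
  set v : A := (1 - p) - Complex.I • p with hv
  have hstar : star u = v := by
    rw [hu, hv, star_add, star_sub, star_one, hp.1, star_smul, hp.1]
    simp [sub_eq_add_neg]
  have huu : u * u = 1 - 2 • p := by
    rw [hu]
    simp only [add_mul, mul_add, sub_mul, mul_sub, one_mul, mul_one, smul_mul_assoc,
      mul_smul_comm, hp.2, smul_add, smul_sub, smul_smul, Complex.I_mul_I]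
    rw [neg_one_smul]
    rw [two_smul]
    abel
  have hvu : v * u = 1 := by
    rw [hu, hv]
    simp only [mul_add, sub_mul, mul_sub, one_mul, mul_one, smul_mul_assoc,
      mul_smul_comm, hp.2, smul_add, smul_sub, smul_smul, Complex.I_mul_I]
    rw [neg_one_smul]
    abel
  have huv : u * v = 1 := by
    rw [hu, hv]
    simp only [add_mul, mul_add, sub_mul, mul_sub, one_mul, mul_one, smul_mul_assoc,
      mul_smul_comm, hp.2, smul_add, smul_sub, smul_smul, Complex.I_mul_I]
    rw [neg_one_smul]
    abel
  have hr : IsPr (u * q * v) := by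
    constructor
    · rw [star_mul, star_mul, hq.1, hstar, ← hstar, star_star, mul_assoc]
    · calc u * q * v * (u * q * v) = u * q * (v * u) * q * v := by noncomm_ring
        _ = u * (q * q) * v := by rw [hvu]; noncomm_ring
        _ = u * q * v := by rw [hq.2]
  have hone : f 1 = toConj A 1 := hf 1 (P A).one_mem
  have hfp : f p = toConj A p := hf p hp.mem
  have hfq : f q = toConj A q := hf q hq.mem
  have hfu : f u = toConj A v := by
    rw [hu, map_add, map_sub, hone, hfp, map_smul, hfp, toConj_smul, Complex.conj_I, neg_smul]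
    show ((1 : A) - p) + -(Complex.I • p) = v
    rw [hv, sub_eq_add_neg (1 - p)]
  have hfv : f v = toConj A u := by
    rw [hv, map_sub, map_sub, hone, hfp, map_smul, hfp, toConj_smul, Complex.conj_I, neg_smul]
    show ((1 : A) - p) - -(Complex.I • p) = u
    rw [hu, sub_neg_eq_add]
  have h1 : f (u * q * v) = toConj A (v * q * u) := by
    rw [map_mul, map_mul, hfu, hfq, hfv]
    rfl
  have h2 : f (u * q * v) = toConj A (u * q * v) := hf _ hr.mem
  have h3 : v * q * u = u * q * v := by
    have := h1.symm.trans h2
    exact this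
  -- `u² q = q u²`
  have h4 : q * (u * u) = (u * u) * q := by
    calc q * (u * u) = (u * v) * q * (u * u) := by rw [huv, one_mul]
      _ = u * (v * q * u) * u := by noncomm_ring
      _ = u * (u * q * v) * u := by rw [h3]
      _ = (u * u) * q * (v * u) := by noncomm_ring
      _ = (u * u) * q := by rw [hvu, mul_one]
  rw [huu] at h4
  have h5 : (2 : ℂ) • (q * p) = (2 : ℂ) • (p * q) := by
    rw [mul_sub, sub_mul, mul_one, one_mul, sub_right_inj, mul_smul_comm, smul_mul_assoc] at h4
    rw [two_smul, two_smul]
    rw [two_smul, two_smul] at h4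
    exact h4
  have h6 := congrArg (fun x => ((2 : ℂ)⁻¹) • x) h5
  simp only [smul_smul] at h6
  norm_num at h6
  exact h6.symm

/-- If all projections of an AW*-algebra commute, they are central. -/
theorem proj_central (hA : IsAWStar A) (h : ∀ p q : A, IsPr p → IsPr q → p * q = q * p) {p : A}
    (hp : IsPr p) (a : A) : a * p = p * a := by
  have key : ∀ a : A, a * p = p * a * p := by
    intro a
    set g : A := p + (1 - p) * a * p with hg
    have hgp : g * p = g := by
      rw [hg, add_mul, hp.2, mul_assoc ((1 - p) * a), hp.2]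
    have hpg : p * g = p := by
      rw [hg, mul_add, hp.2]
      have : p * ((1 - p) * a * p) = (p - p * p) * a * p := by noncomm_ring
      rw [this, hp.2, sub_self, zero_mul, zero_mul, add_zero]
    have hgg : g * g = g := by
      calc g * g = (g * p) * g := by rw [hgp]
        _ = g * (p * g) := mul_assoc _ _ _
        _ = g := by rw [hpg, hgp]
    obtain ⟨r, -, hr1, hr2, hr3⟩ := hA {1 - g}
    have hr : IsPr r := ⟨hr1, hr2⟩
    have h1 : g * r = r := by
      have := (hr3 r (Set.mem_univ _)).2 ⟨1, Set.mem_univ _, (mul_one r).symm⟩ (1 - g) rfl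
      rw [sub_mul, one_mul, sub_eq_zero] at this
      exact this.symm
    have h2 : r * g = g := by
      obtain ⟨z, -, hz⟩ := (hr3 g (Set.mem_univ _)).1 (by
        rintro x rfl
        rw [sub_mul, one_mul, hgg, sub_self])
      rw [hz, ← mul_assoc, hr2]
    have h3 : r * p = r := by
      calc r * p = g * r * p := by rw [h1]
        _ = g * (r * p) := mul_assoc _ _ _
        _ = g * (p * r) := by rw [h p r hp hr]
        _ = (g * p) * r := (mul_assoc _ _ _).symm
        _ = r := by rw [hgp, h1]
    have h4 : g = p := by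
      calc g = r * g := h2.symm
        _ = r * p * g := by rw [h3]
        _ = p * r * g := by rw [h p r hp hr]
        _ = p * (r * g) := mul_assoc _ _ _
        _ = p := by rw [h2, hpg]
    have h5 : (1 - p) * a * p = 0 := by
      have : p + (1 - p) * a * p = p := by rw [← hg]; exact h4
      simpa using this
    rw [sub_mul, sub_mul, one_mul, sub_eq_zero] at h5
    exact h5
  have h1 := key a
  have h2 := congrArg star (key (star a))
  simp only [star_mul, star_star, hp.1] at h2
  rw [h2, ← mul_assoc]
  exact h1

open CStarAlgebra in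
/-- If all projections of an AW*-algebra are central, it is commutative. -/
theorem comm_of_central (hA : IsAWStar A) (h : ∀ p : A, IsPr p → ∀ a : A, a * p = p * a) (a b : A) :
    a * b = b * a := by
  let _ : PartialOrder A := CStarAlgebra.spectralOrder A
  have : StarOrderedRing A := CStarAlgebra.spectralOrderedRing A
  -- multiplication by a central projection preserves order
  have hmul : ∀ p : A, IsPr p → ∀ x y : A, x ≤ y → x * p ≤ y * p := by
    intro p hp x y hxy
    have h1 : 0 ≤ (y - x) * p := by
      have h2 : (y - x) * p = star p * (y - x) * p := by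
        rw [hp.1, ← h p hp (y - x), mul_assoc, hp.2]
      rw [h2]
      exact star_left_conjugate_nonneg (sub_nonneg.2 hxy) p
    rw [sub_mul] at h1
    exact sub_nonneg.1 h1
  -- approximation by central elements
  have approx : ∀ (n : ℕ) (a : A), IsSelfAdjoint a → ∀ (q : A), IsPr q → ∀ (s δ : ℝ), 0 ≤ δ →
      s • q ≤ a * q → a * q ≤ (s + δ) • q →
      ∃ c : A, (∀ y : A, c * y = y * c) ∧ 0 ≤ a * q - c ∧
        a * q - c ≤ (δ / 2 ^ n) • q := by
    intro n
    induction n with
    | zero =>
      intro a ha q hq s δ hδ h1 h2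
      refine ⟨s • q, fun y => ?_, sub_nonneg.2 h1, ?_⟩
      · rw [smul_mul_assoc, mul_smul_comm, h q hq y]
      · rw [pow_zero, div_one, sub_le_iff_le_add]
        refine h2.trans_eq ?_
        rw [← add_smul, add_comm]
    | succ n ih =>
      intro a ha q hq s δ hδ h1 h2
      set t : ℝ := s + δ / 2 with ht
      set at' : A := a - t • (1 : A) with hat
      have hsa : IsSelfAdjoint at' := by
        rw [hat]
        refine ha.sub ?_
        rw [IsSelfAdjoint, star_smul, star_one]
        simp
      obtain ⟨e, -, he1, he2, he3⟩ := hA {at'⁺}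
      have he : IsPr e := ⟨he1, he2⟩
      have hpos : at'⁺ * e = 0 :=
        (he3 e (Set.mem_univ _)).2 ⟨1, Set.mem_univ _, (mul_one e).symm⟩ _ rfl
      have hneg : at'⁻ * e = at'⁻ := by
        obtain ⟨z, -, hz⟩ := (he3 (at'⁻) (Set.mem_univ _)).1 (by
          rintro x rfl
          exact CFC.posPart_mul_negPart at')
        rw [h e he, hz, ← mul_assoc, he2]
      have hdec : at'⁺ - at'⁻ = at' := CFC.posPart_sub_negPart at' hsa
      have hle : a * e ≤ t • e := by
        have h3 : at' * e = - at'⁻ := by
          calc at' * e = (at'⁺ - at'⁻) * e := by rw [hdec]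
            _ = - at'⁻ := by rw [sub_mul, hpos, hneg, zero_sub]
        have h4 : a * e - t • e = - at'⁻ := by
          rw [← h3, hat, sub_mul, smul_mul_assoc, one_mul]
        rw [← sub_nonpos, h4]
        exact neg_nonpos.2 (CFC.negPart_nonneg _)
      have hge : t • (1 - e) ≤ a * (1 - e) := by
        have h3 : at' * (1 - e) = at'⁺ := by
          rw [mul_sub, mul_one]
          have h5 : at' * e = - at'⁻ := by
            calc at' * e = (at'⁺ - at'⁻) * e := by rw [hdec]
              _ = - at'⁻ := by rw [sub_mul, hpos, hneg, zero_sub]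
          rw [h5, sub_neg_eq_add]
          calc at' + at'⁻ = (at'⁺ - at'⁻) + at'⁻ := by rw [hdec]
            _ = at'⁺ := sub_add_cancel _ _
        have h4 : a * (1 - e) - t • (1 - e) = at'⁺ := by
          rw [← h3, hat, sub_mul, smul_mul_assoc, one_mul]
        rw [← sub_nonneg, h4]
        exact CFC.posPart_nonneg _
      have hqe : IsPr (q * e) := by
        refine ⟨by rw [star_mul, he1, hq.1, h q hq e], ?_⟩
        calc q * e * (q * e) = q * (e * q) * e := by noncomm_ring
          _ = q * (q * e) * e := by rw [h q hq e]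
          _ = (q * q) * (e * e) := by noncomm_ring
          _ = q * e := by rw [hq.2, he2]
      have he' : IsPr (1 - e) := by
        refine ⟨by rw [star_sub, star_one, he1], ?_⟩
        rw [sub_mul, mul_sub, mul_sub, he2]
        simp
      have hqe' : IsPr (q * (1 - e)) := by
        refine ⟨by rw [star_mul, he'.1, hq.1, h q hq (1 - e)], ?_⟩
        calc q * (1 - e) * (q * (1 - e)) = q * ((1 - e) * q) * (1 - e) := by noncomm_ring
          _ = q * (q * (1 - e)) * (1 - e) := by rw [h q hq (1 - e)]
          _ = (q * q) * ((1 - e) * (1 - e)) := by noncomm_ring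
          _ = q * (1 - e) := by rw [hq.2, he'.2]
      -- the two halves
      have a1 : s • (q * e) ≤ a * (q * e) := by
        have := hmul e he _ _ h1
        rwa [smul_mul_assoc, mul_assoc] at this
      have a2 : a * (q * e) ≤ (s + δ / 2) • (q * e) := by
        have := hmul q hq _ _ hle
        rwa [smul_mul_assoc, mul_assoc, h q hq e] at this
      have b1 : t • (q * (1 - e)) ≤ a * (q * (1 - e)) := by
        have := hmul q hq _ _ hge
        rwa [smul_mul_assoc, mul_assoc, h q hq (1 - e)] at this
      have b2 : a * (q * (1 - e)) ≤ (t + δ / 2) • (q * (1 - e)) := by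
        have := hmul (1 - e) he' _ _ h2
        rw [smul_mul_assoc, mul_assoc] at this
        rw [ht, show s + δ / 2 + δ / 2 = s + δ by ring]
        exact this
      obtain ⟨c1, hc1, hc1', hc1''⟩ := ih a ha (q * e) hqe s (δ / 2) (by positivity) a1 a2
      obtain ⟨c2, hc2, hc2', hc2''⟩ := ih a ha (q * (1 - e)) hqe' t (δ / 2) (by positivity) b1 b2
      have hsum : a * q - (c1 + c2) = (a * (q * e) - c1) + (a * (q * (1 - e)) - c2) := by
        noncomm_ring
      refine ⟨c1 + c2, fun y => by rw [add_mul, mul_add, hc1, hc2], ?_, ?_⟩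
      · rw [hsum]
        exact add_nonneg hc1' hc2'
      · rw [hsum]
        refine (add_le_add hc1'' hc2'').trans_eq ?_
        rw [← smul_add, show q * e + q * (1 - e) = q by noncomm_ring,
          show δ / 2 / 2 ^ n = δ / 2 ^ (n + 1) by rw [pow_succ]; field_simp]
  -- self-adjoint elements are central
  have hsa : ∀ x : A, IsSelfAdjoint x → ∀ y : A, x * y = y * x := by
    intro x hx y
    have hone : IsPr (1 : A) := ⟨star_one A, one_mul 1⟩
    have hb : ∀ n : ℕ, ‖x * y - y * x‖ ≤ 2 * ((2 * ‖x‖) / 2 ^ n) * ‖y‖ := by
      intro n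
      obtain ⟨c, hc, h1, h2⟩ := approx n x hx 1 hone (-‖x‖) (2 * ‖x‖) (by positivity)
        (by
          rw [mul_one, neg_smul, ← Algebra.algebraMap_eq_smul_one]
          exact hx.neg_algebraMap_norm_le_self)
        (by
          rw [mul_one, show -‖x‖ + 2 * ‖x‖ = ‖x‖ by ring, ← Algebra.algebraMap_eq_smul_one]
          exact hx.le_algebraMap_norm_self)
      rw [mul_one] at h1 h2
      rw [← Algebra.algebraMap_eq_smul_one] at h2
      have h3 : ‖x - c‖ ≤ (2 * ‖x‖) / 2 ^ n :=
        (CStarAlgebra.norm_le_iff_le_algebraMap _ (by positivity) h1).2 h2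
      have h4 : x * y - y * x = (x - c) * y - y * (x - c) := by
        rw [sub_mul, mul_sub, hc]
        abel
      rw [h4]
      calc ‖(x - c) * y - y * (x - c)‖ ≤ ‖(x - c) * y‖ + ‖y * (x - c)‖ := norm_sub_le _ _
        _ ≤ ‖x - c‖ * ‖y‖ + ‖y‖ * ‖x - c‖ := add_le_add (norm_mul_le _ _) (norm_mul_le _ _)
        _ = 2 * ‖x - c‖ * ‖y‖ := by ring
        _ ≤ 2 * ((2 * ‖x‖) / 2 ^ n) * ‖y‖ := by gcongr
    have hlim : Filter.Tendsto (fun n : ℕ => 2 * ((2 * ‖x‖) / 2 ^ n) * ‖y‖) Filter.atTop
        (nhds (2 * 0 * ‖y‖)) := by
      refine (Filter.Tendsto.const_mul 2 ?_).mul_const _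
      exact Filter.Tendsto.const_div_atTop
        (tendsto_pow_atTop_atTop_of_one_lt one_lt_two) _
    rw [mul_zero, zero_mul] at hlim
    have h0 : ‖x * y - y * x‖ ≤ 0 := ge_of_tendsto' hlim hb
    exact sub_eq_zero.1 (norm_le_zero_iff.1 h0)
  rw [← realPart_add_I_smul_imaginaryPart a, add_mul, mul_add, smul_mul_assoc, mul_smul_comm,
    hsa _ (realPart a).2, hsa _ (imaginaryPart a).2]

/-- **Main theorem.** Let `A` be an AW*-algebra which is not commutative. There are an AW*-algebra
`B` (the conjugate algebra of `A`) and an isomorphism `φ : P(A) → P(B)` of Baer *-semigroups (`φ`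
and its inverse `ψ` are morphisms of Baer *-semigroups) which is not the restriction of a
`*`-homomorphism `A → B`; in particular it is not the restriction of a morphism of AW*-algebras. -/
theorem result (A : Type u) [CStarAlgebra A] (hA : IsAWStar A) (hnc : ¬ ∀ a b : A, a * b = b * a) :
    ∃ (B : Type u) (_ : CStarAlgebra B) (φ : A → B) (ψ : B → A), IsAWStar B ∧
      IsBaerMorphism φ ∧ IsBaerMorphism ψ ∧ (∀ x ∈ P A, ψ (φ x) = x) ∧ (∀ y ∈ P B, φ (ψ y) = y) ∧
      (¬ ∃ f : A →⋆ₙₐ[ℂ] B, ∀ x ∈ P A, f x = φ x) ∧
      ¬ ∃ f : A →⋆ₙₐ[ℂ] B, IsAWMorphism f ∧ ∀ x ∈ P A, f x = φ x := by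
  have key : ¬ ∃ f : A →⋆ₙₐ[ℂ] Conj A, ∀ x ∈ P A, f x = toConj A x := by
    rintro ⟨f, hf⟩
    exact hnc (comm_of_central hA fun p hp a =>
      proj_central hA (fun p q hp hq => proj_comm f hf hp hq) hp a)
  exact ⟨Conj A, inferInstance, toConj A, ofConj A, awstar_conj hA, toConj_baer, ofConj_baer,
    fun _ _ => rfl, fun _ _ => rfl, key, fun ⟨f, _, hf⟩ => key ⟨f, hf⟩⟩

end

end Pool.Agent.Results.MP_dba3a1_an.EveryNoncommutative
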